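import Mathlib
import Pool.Agent.Helper892.RectD

set_option autoImplicit false

namespace Pool.Agent.Results.MP_c2c9d7_co.NotGood

open Pool.Agent.Helper892.RectB Pool.Agent.Helper892.RectC Pool.Agent.Helper892.RectD

/-- The two diagonals of the rectangle, in complex notation. -/
theorem pair_case (ζ w : ℂ) (hζ : ‖ζ‖ = 1) (hw : ‖w‖ = 1)
    (h : (w * (starRingEnd ℂ) ζ).re = 4 / 5) : w = u * ζ ∨ ζ = u * w := by
  obtain ⟨D, hD⟩ : ∃ D, D = w * (starRingEnd ℂ) ζ := ⟨_, rfl⟩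
  have hn : Complex.normSq D = 1 := by
    rw [hD, Complex.normSq_eq_norm_sq, norm_mul, RCLike.norm_conj, hζ, hw]; norm_num
  rw [← hD] at h
  rw [Complex.normSq_apply, h] at hn
  have hi : (D.im - 3 / 5) * (D.im + 3 / 5) = 0 := by linarith
  have hz := z_conj hζ
  have hz' := z_conj hw
  rcases mul_eq_zero.mp hi with h1 | h1
  · left
    have : D = u := by
      apply Complex.ext
      · rw [h]; rfl
      · have : D.im = 3 / 5 := by linarith
        rw [this]; rfl
    rw [← this, hD]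
    linear_combination (-w) * hz
  · right
    have : (starRingEnd ℂ) D = u := by
      apply Complex.ext
      · rw [Complex.conj_re, h]; rfl
      · have : D.im = -(3 / 5) := by linarith
        rw [Complex.conj_im, this, neg_neg]; rfl
    rw [← this, hD, map_mul, Complex.conj_conj]
    linear_combination (-ζ) * hz'

/-- For every side length `a > 0`, the circle of radius `√10 a` is not good for the rectangular
table with side lengths `a` and `3a`. -/
theorem result (a : ℝ) (ha : 0 < a) :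
    ∃ K : Set (EuclideanSpace ℝ (Fin 2)), IsCompact K ∧ Convex ℝ K ∧ (interior K).Nonempty ∧
      K = Metric.closedBall 0 (√10 * a) ∧
      ∃ f : EuclideanSpace ℝ (Fin 2) → ℝ, Continuous f ∧ (∀ x, 0 ≤ f x) ∧ (∀ x, x ∉ K → f x = 0) ∧
        ∀ (g : EuclideanSpace ℝ (Fin 2) ≃ᵢ EuclideanSpace ℝ (Fin 2)) (lam : ℝ),
          g 0 ∈ interior K →
          ¬ (f (g !₂[a / 2, 3 * a / 2]) = lam ∧ f (g !₂[-(a / 2), 3 * a / 2]) = lam ∧
            f (g !₂[-(a / 2), -(3 * a / 2)]) = lam ∧ f (g !₂[a / 2, -(3 * a / 2)]) = lam) := by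
  have h10 : 0 < √10 := Real.sqrt_pos.mpr (by norm_num)
  have h10' : √10 ^ 2 = 10 := Real.sq_sqrt (by norm_num)
  have hR : 0 < √10 * a := by positivity
  have hint : interior (Metric.closedBall (0 : EuclideanSpace ℝ (Fin 2)) (√10 * a)) =
      Metric.ball 0 (√10 * a) := interior_closedBall _ hR.ne'
  refine ⟨Metric.closedBall 0 (√10 * a), isCompact_closedBall _ _, convex_closedBall _ _, ?_, rfl, ?_⟩
  · rw [hint]
    exact ⟨0, Metric.mem_ball_self hR⟩
  obtain ⟨κ, hκ⟩ : ∃ κ, κ = √10 * a / 2 := ⟨_, rfl⟩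
  have hκ0 : 0 < κ := by rw [hκ]; positivity
  let φ : ℂ ≃ₗᵢ[ℝ] EuclideanSpace ℝ (Fin 2) := Complex.orthonormalBasisOneI.repr
  have hε : (0 : ℝ) < 1 / 10 ^ 6 := by norm_num
  refine ⟨fun x => f (1 / 10 ^ 6) (κ⁻¹ • φ.symm x), ?_, ?_, ?_, ?_⟩
  · exact (f_cont _).comp ((φ.symm.continuous).const_smul κ⁻¹)
  · exact fun x => f_nonneg _ hε le_rfl _
  · intro x hx
    apply f_zero
    rw [Metric.mem_closedBall, dist_zero_right, not_le] at hx
    rw [Complex.normSq_eq_norm_sq, norm_smul, LinearIsometryEquiv.norm_map, norm_inv,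
      Real.norm_of_nonneg hκ0.le]
    have : 2 ≤ κ⁻¹ * ‖x‖ := by
      rw [inv_mul_eq_div, le_div_iff₀ hκ0, hκ]
      linarith
    nlinarith
  · intro g lam hg
    rintro ⟨h1, h2, h3, h4⟩
    rw [hint, Metric.mem_ball, dist_zero_right] at hg
    let L : EuclideanSpace ℝ (Fin 2) ≃ₗᵢ[ℝ] EuclideanSpace ℝ (Fin 2) := g.toRealLinearIsometryEquiv
    have hL : ∀ x, g x = g 0 + L x := by
      intro x
      have : L x = g x - g 0 := g.toRealLinearIsometryEquiv_apply x
      rw [this]; abel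
    have n1 : ‖(!₂[a / 2, 3 * a / 2] : EuclideanSpace ℝ (Fin 2))‖ = κ := by
      rw [EuclideanSpace.norm_eq, Fin.sum_univ_two]
      simp only [Real.norm_eq_abs, sq_abs]
      rw [Real.sqrt_eq_iff_mul_self_eq (by positivity) hκ0.le, hκ]
      simp
      nlinarith [h10']
    have n2 : ‖(!₂[-(a / 2), 3 * a / 2] : EuclideanSpace ℝ (Fin 2))‖ = κ := by
      rw [EuclideanSpace.norm_eq, Fin.sum_univ_two]
      simp only [Real.norm_eq_abs, sq_abs]
      rw [Real.sqrt_eq_iff_mul_self_eq (by positivity) hκ0.le, hκ]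
      simp
      nlinarith [h10']
    have m1 : (!₂[-(a / 2), -(3 * a / 2)] : EuclideanSpace ℝ (Fin 2)) = -!₂[a / 2, 3 * a / 2] := by
      ext i; fin_cases i <;> simp
    have m2 : (!₂[a / 2, -(3 * a / 2)] : EuclideanSpace ℝ (Fin 2)) = -!₂[-(a / 2), 3 * a / 2] := by
      ext i; fin_cases i <;> simp
    have ip : inner ℝ (!₂[a / 2, 3 * a / 2] : EuclideanSpace ℝ (Fin 2)) !₂[-(a / 2), 3 * a / 2] =
        4 / 5 * κ ^ 2 := by
      simp [PiLp.inner_apply, Fin.sum_univ_two, hκ]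
      nlinarith [h10']
    obtain ⟨c, hc⟩ : ∃ c, c = κ⁻¹ • φ.symm (g 0) := ⟨_, rfl⟩
    obtain ⟨ζ, hζ⟩ : ∃ ζ, ζ = κ⁻¹ • φ.symm (L !₂[a / 2, 3 * a / 2]) := ⟨_, rfl⟩
    obtain ⟨w, hw⟩ : ∃ w, w = κ⁻¹ • φ.symm (L !₂[-(a / 2), 3 * a / 2]) := ⟨_, rfl⟩
    have hζn : ‖ζ‖ = 1 := by
      rw [hζ, norm_smul, LinearIsometryEquiv.norm_map, LinearIsometryEquiv.norm_map, n1, norm_inv,
        Real.norm_of_nonneg hκ0.le, inv_mul_cancel₀ hκ0.ne']
    have hwn : ‖w‖ = 1 := by
      rw [hw, norm_smul, LinearIsometryEquiv.norm_map, LinearIsometryEquiv.norm_map, n2, norm_inv,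
        Real.norm_of_nonneg hκ0.le, inv_mul_cancel₀ hκ0.ne']
    have hcn : Complex.normSq c < 4 := by
      rw [hc, Complex.normSq_eq_norm_sq, norm_smul, LinearIsometryEquiv.norm_map, norm_inv,
        Real.norm_of_nonneg hκ0.le]
      have : κ⁻¹ * ‖g 0‖ < 2 := by
        rw [inv_mul_eq_div, div_lt_iff₀ hκ0, hκ]
        linarith
      have h0 : 0 ≤ κ⁻¹ * ‖g 0‖ := by positivity
      nlinarith
    have hip : (w * (starRingEnd ℂ) ζ).re = 4 / 5 := by
      have : inner ℝ ζ w = 4 / 5 := by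
        rw [hζ, hw, real_inner_smul_left, real_inner_smul_right, LinearIsometryEquiv.inner_map_map,
          LinearIsometryEquiv.inner_map_map, ip]
        field_simp
      rw [Complex.inner] at this
      exact this
    have e1 : κ⁻¹ • φ.symm (g !₂[a / 2, 3 * a / 2]) = c + ζ := by
      rw [hL, map_add, smul_add, hc, hζ]
    have e2 : κ⁻¹ • φ.symm (g !₂[-(a / 2), 3 * a / 2]) = c + w := by
      rw [hL, map_add, smul_add, hc, hw]
    have e3 : κ⁻¹ • φ.symm (g !₂[-(a / 2), -(3 * a / 2)]) = c - ζ := by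
      rw [m1, hL, map_neg, map_add, smul_add, map_neg, smul_neg, hc, hζ, sub_eq_add_neg]
    have e4 : κ⁻¹ • φ.symm (g !₂[a / 2, -(3 * a / 2)]) = c - w := by
      rw [m2, hL, map_neg, map_add, smul_add, map_neg, smul_neg, hc, hw, sub_eq_add_neg]
    simp only [e1] at h1
    simp only [e2] at h2
    simp only [e3] at h3
    simp only [e4] at h4
    rcases pair_case ζ w hζn hwn hip with h | h
    · rw [h] at h2 h4
      exact main _ hε le_rfl c ζ hζn hcn lam h1 h3 h2 h4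
    · rw [h] at h1 h3
      exact main _ hε le_rfl c w hwn hcn lam h2 h4 h1 h3

end Pool.Agent.Results.MP_c2c9d7_co.NotGood
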